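import Mathlib
import Pool.Agent.Helper32.Cotype.Defs

/-! R5 `key_bound` for MP_f9ce33_an (helper32): pure real inequalities. -/

set_option autoImplicit false

open scoped BigOperators

namespace Pool.Agent.Cotype

namespace KB

variable {G : Type} [Fintype G] [DecidableEq G]

/-- apply the matrix `H` -/
def app (H : G → G → ℝ) (c : G → ℝ) : G → ℝ := fun p => ∑ q, H p q * c q

omit [DecidableEq G] in
lemma app_add (H : G → G → ℝ) (a b : G → ℝ) (p : G) :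
    app H (fun q => a q + b q) p = app H a p + app H b p := by
  simp only [app, mul_add, Finset.sum_add_distrib]

omit [DecidableEq G] in
lemma app_sub (H : G → G → ℝ) (a b : G → ℝ) (p : G) :
    app H (fun q => a q - b q) p = app H a p - app H b p := by
  simp only [app, mul_sub, Finset.sum_sub_distrib]

lemma app_app (H : G → G → ℝ)
    (h2 : ∀ p q, ∑ r, H p r * H r q = if p = q then 1 else 0) (a : G → ℝ) (p : G) :
    app H (app H a) p = a p := by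
  unfold app
  calc ∑ q, H p q * ∑ r, H q r * a r = ∑ q, ∑ r, H p q * H q r * a r := by
        refine Finset.sum_congr rfl fun q _ => ?_
        rw [Finset.mul_sum]
        exact Finset.sum_congr rfl fun r _ => by ring
    _ = ∑ r, ∑ q, H p q * H q r * a r := Finset.sum_comm
    _ = ∑ r, (if p = r then 1 else 0) * a r := by
        refine Finset.sum_congr rfl fun r _ => ?_
        rw [← Finset.sum_mul, h2]
    _ = a p := by simp

omit [DecidableEq G] in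
lemma dot_app (H : G → G → ℝ) (h1 : ∀ p q, H p q = H q p) (a b : G → ℝ) :
    ∑ p, app H a p * b p = ∑ p, a p * app H b p := by
  unfold app
  calc ∑ p, (∑ q, H p q * a q) * b p = ∑ p, ∑ q, H p q * a q * b p := by
        exact Finset.sum_congr rfl fun p _ => by rw [Finset.sum_mul]
    _ = ∑ q, ∑ p, H p q * a q * b p := Finset.sum_comm
    _ = ∑ q, a q * ∑ p, H q p * b p := by
        refine Finset.sum_congr rfl fun q _ => ?_
        rw [Finset.mul_sum]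
        exact Finset.sum_congr rfl fun p _ => by rw [h1 p q]; ring

lemma norm_app (H : G → G → ℝ) (h1 : ∀ p q, H p q = H q p)
    (h2 : ∀ p q, ∑ r, H p r * H r q = if p = q then 1 else 0) (a : G → ℝ) :
    ∑ p, app H a p ^ 2 = ∑ p, a p ^ 2 := by
  have := dot_app H h1 a (app H a)
  calc ∑ p, app H a p ^ 2 = ∑ p, app H a p * app H a p :=
        Finset.sum_congr rfl fun p _ => by ring
    _ = ∑ p, a p * app H (app H a) p := this
    _ = ∑ p, a p ^ 2 := Finset.sum_congr rfl fun p _ => by rw [app_app H h2]; ring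

omit [DecidableEq G] in
lemma abs_app_le (H : G → G → ℝ) (κ : ℝ) (h3 : ∀ p q, |H p q| ≤ κ) (a : G → ℝ) (p : G) :
    |app H a p| ≤ κ * ∑ q, |a q| := by
  unfold app
  calc |∑ q, H p q * a q| ≤ ∑ q, |H p q * a q| := Finset.abs_sum_le_sum_abs _ _
    _ ≤ ∑ q, κ * |a q| := by
        refine Finset.sum_le_sum fun q _ => ?_
        rw [abs_mul]
        exact mul_le_mul_of_nonneg_right (h3 p q) (abs_nonneg _)
    _ = κ * ∑ q, |a q| := by rw [Finset.mul_sum]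

omit [DecidableEq G] in
lemma cs (a b : G → ℝ) : (∑ p, a p * b p) ^ 2 ≤ (∑ p, a p ^ 2) * ∑ p, b p ^ 2 :=
  Finset.sum_mul_sq_le_sq_mul_sq _ _ _

/-- the `s`-twisted product is bounded -/
lemma twist (H : G → G → ℝ) (s : G → ℝ) (κ L R : ℝ) (hκ : 0 ≤ κ) (hL : 0 ≤ L)
    (h1 : ∀ p q, H p q = H q p)
    (h3 : ∀ p q, |H p q| ≤ κ) (hs : ∀ p, s p = 1 ∨ s p = -1)
    (h4 : ∀ p q, |∑ r, H p r * s r * H r q| ≤ κ)
    (c a x r d b y r' : G → ℝ)
    (hc : ∀ p, c p = a p + app H x p + r p)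
    (hd : ∀ p, d p = b p + app H y p + r' p)
    (ha : ∑ p, |a p| ≤ L) (hx : ∑ p, |x p| ≤ L) (hb : ∑ p, |b p| ≤ L) (hy : ∑ p, |y p| ≤ L)
    (hr : ∑ p, r p ^ 2 ≤ R ^ 2) (hr' : ∑ p, r' p ^ 2 ≤ R ^ 2) (hR : 0 ≤ R)
    (hc2 : ∑ p, c p ^ 2 ≤ 4) (hd2 : ∑ p, d p ^ 2 ≤ 4) :
    |∑ p, s p * c p * d p| ≤ (∑ p, a p ^ 2 + ∑ p, b p ^ 2) / 2 + 3 * (κ * L ^ 2)
      + 4 * R + R ^ 2 := by
  have hs1 : ∀ p, |s p| = 1 := fun p => by rcases hs p with h | h <;> simp [h]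
  have hs2 : ∀ p, s p ^ 2 = 1 := fun p => by rcases hs p with h | h <;> simp [h]
  have e : ∑ p, s p * c p * d p = ∑ p, s p * a p * b p + ∑ p, s p * a p * app H y p
      + ∑ p, s p * app H x p * b p + ∑ p, s p * app H x p * app H y p
      + ∑ p, r p * (s p * d p) + ∑ p, r' p * (s p * c p) - ∑ p, r p * (s p * r' p) := by
    rw [← Finset.sum_add_distrib, ← Finset.sum_add_distrib, ← Finset.sum_add_distrib,
      ← Finset.sum_add_distrib, ← Finset.sum_add_distrib, ← Finset.sum_sub_distrib]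
    refine Finset.sum_congr rfl fun p _ => ?_
    rw [hc p, hd p]; ring
  have t1 : |∑ p, s p * a p * b p| ≤ (∑ p, a p ^ 2 + ∑ p, b p ^ 2) / 2 := by
    calc |∑ p, s p * a p * b p| ≤ ∑ p, |s p * a p * b p| := Finset.abs_sum_le_sum_abs _ _
      _ ≤ ∑ p, (a p ^ 2 + b p ^ 2) / 2 := by
          refine Finset.sum_le_sum fun p _ => ?_
          rw [abs_mul, abs_mul, hs1, one_mul]
          nlinarith [sq_nonneg (|a p| - |b p|), sq_abs (a p), sq_abs (b p)]
      _ = _ := by rw [← Finset.sum_div, Finset.sum_add_distrib]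
  have gen : ∀ (u v : G → ℝ), ∑ p, |u p| ≤ L → ∑ p, |v p| ≤ L →
      |∑ p, s p * u p * app H v p| ≤ κ * L ^ 2 := by
    intro u v hu hv
    calc |∑ p, s p * u p * app H v p| ≤ ∑ p, |s p * u p * app H v p| :=
          Finset.abs_sum_le_sum_abs _ _
      _ ≤ ∑ p, |u p| * (κ * L) := by
          refine Finset.sum_le_sum fun p _ => ?_
          rw [abs_mul, abs_mul, hs1, one_mul]
          refine mul_le_mul_of_nonneg_left ?_ (abs_nonneg _)
          exact (abs_app_le H κ h3 v p).trans (mul_le_mul_of_nonneg_left hv hκ)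
      _ = (∑ p, |u p|) * (κ * L) := by rw [Finset.sum_mul]
      _ ≤ L * (κ * L) := mul_le_mul_of_nonneg_right hu (by positivity)
      _ = κ * L ^ 2 := by ring
  have t2 := gen a y ha hy
  have t3 : |∑ p, s p * app H x p * b p| ≤ κ * L ^ 2 := by
    have := gen b x hb hx
    rwa [show ∑ p, s p * app H x p * b p = ∑ p, s p * b p * app H x p from
      Finset.sum_congr rfl fun p _ => by ring]
  have t4 : |∑ p, s p * app H x p * app H y p| ≤ κ * L ^ 2 := by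
    have e4 : ∑ p, s p * app H x p * app H y p
        = ∑ q, ∑ r, x q * y r * ∑ p, H q p * s p * H p r := by
      unfold app
      calc ∑ p, s p * (∑ q, H p q * x q) * (∑ r, H p r * y r)
          = ∑ p, ∑ q, ∑ r, x q * y r * (H q p * s p * H p r) := by
            refine Finset.sum_congr rfl fun p _ => ?_
            rw [mul_assoc, Finset.sum_mul_sum, Finset.mul_sum]
            refine Finset.sum_congr rfl fun q _ => ?_
            rw [Finset.mul_sum]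
            refine Finset.sum_congr rfl fun r _ => ?_
            rw [h1 p q]; ring
        _ = ∑ q, ∑ p, ∑ r, x q * y r * (H q p * s p * H p r) := Finset.sum_comm
        _ = ∑ q, ∑ r, ∑ p, x q * y r * (H q p * s p * H p r) :=
            Finset.sum_congr rfl fun q _ => Finset.sum_comm
        _ = _ := by
            refine Finset.sum_congr rfl fun q _ => Finset.sum_congr rfl fun r _ => ?_
            rw [Finset.mul_sum]
    rw [e4]
    calc |∑ q, ∑ r, x q * y r * ∑ p, H q p * s p * H p r|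
        ≤ ∑ q, ∑ r, |x q| * (|y r| * κ) := by
          refine (Finset.abs_sum_le_sum_abs _ _).trans (Finset.sum_le_sum fun q _ => ?_)
          refine (Finset.abs_sum_le_sum_abs _ _).trans (Finset.sum_le_sum fun r _ => ?_)
          rw [abs_mul, abs_mul, mul_assoc]
          exact mul_le_mul_of_nonneg_left
            (mul_le_mul_of_nonneg_left (h4 q r) (abs_nonneg _)) (abs_nonneg _)
      _ = (∑ q, |x q|) * ((∑ r, |y r|) * κ) := by
          rw [Finset.sum_mul]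
          refine Finset.sum_congr rfl fun q _ => ?_
          rw [Finset.sum_mul, Finset.mul_sum]
      _ ≤ L * (L * κ) := by
          refine mul_le_mul hx (mul_le_mul_of_nonneg_right hy hκ) ?_ hL
          exact mul_nonneg (Finset.sum_nonneg fun _ _ => abs_nonneg _) hκ
      _ = κ * L ^ 2 := by ring
  have cs2 : ∀ (u v : G → ℝ) (U V : ℝ), ∑ p, u p ^ 2 ≤ U ^ 2 → ∑ p, v p ^ 2 ≤ V ^ 2 → 0 ≤ U →
      0 ≤ V → |∑ p, u p * (s p * v p)| ≤ U * V := by
    intro u v U V hu hv hU hV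
    apply abs_le_of_sq_le_sq _ (by positivity)
    calc (∑ p, u p * (s p * v p)) ^ 2 ≤ (∑ p, u p ^ 2) * ∑ p, (s p * v p) ^ 2 := cs _ _
      _ = (∑ p, u p ^ 2) * ∑ p, v p ^ 2 := by
          congr 1
          exact Finset.sum_congr rfl fun p _ => by rw [mul_pow, hs2, one_mul]
      _ ≤ U ^ 2 * V ^ 2 := mul_le_mul hu hv (Finset.sum_nonneg fun _ _ => sq_nonneg _)
          (by positivity)
      _ = (U * V) ^ 2 := by ring
  have t5 := cs2 r d R 2 hr (by linarith) hR (by norm_num)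
  have t6 := cs2 r' c R 2 hr' (by linarith) hR (by norm_num)
  have t7 := cs2 r r' R R hr hr' hR hR
  rw [e]
  rw [abs_le] at t1 t2 t3 t4 t5 t6 t7 ⊢
  constructor <;> nlinarith [t1.1, t1.2, t2.1, t2.2, t3.1, t3.2, t4.1, t4.2, t5.1, t5.2,
    t6.1, t6.2, t7.1, t7.2]

omit [DecidableEq G] in
/-- norm bound -/
lemma norm_le (H : G → G → ℝ) (ρ : ℝ) (hρ : 0 < ρ)
    (h5 : ∀ c : G → ℝ, ∑ p, c p ^ 4 + ∑ p, app H c p ^ 4 ≤ (1 + ρ ^ 16) * (∑ p, c p ^ 2) ^ 2)
    (c : G → ℝ)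
    (hc : ∀ c' : G → ℝ, (∑ p, c' p * c p) ^ 4 ≤
          ∑ p, c' p ^ 4 + ∑ p, app H c' p ^ 4 + 3 * ρ ^ 16 * (∑ p, c' p ^ 2) ^ 2) :
    ∑ p, c p ^ 2 ≤ 1 + 2 * ρ ^ 16 := by
  set n := ∑ p, c p ^ 2 with hn
  have hn0 : 0 ≤ n := Finset.sum_nonneg fun _ _ => sq_nonneg _
  have h := (hc c).trans (add_le_add_left (h5 c) _)
  have e : ∑ p, c p * c p = n := Finset.sum_congr rfl fun p _ => by ring
  rw [e, ← hn] at h
  by_contra hlt
  push Not at hlt
  have hρ' : 0 < ρ ^ 16 := by positivity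
  have hn1 : 1 < n := by linarith
  have h2 : n ^ 4 ≤ (1 + 4 * ρ ^ 16) * n ^ 2 := by nlinarith
  have h3 : n ^ 2 ≤ 1 + 4 * ρ ^ 16 := by
    have : n ^ 2 * n ^ 2 ≤ (1 + 4 * ρ ^ 16) * n ^ 2 := by nlinarith
    exact le_of_mul_le_mul_right this (by positivity)
  nlinarith

/-- the decomposition of a vector -/
lemma decomp (H : G → G → ℝ) (ρ : ℝ) (hρ : 0 < ρ) (hρ2 : ρ ≤ 1 / 2)
    (h1 : ∀ p q, H p q = H q p)
    (h2 : ∀ p q, ∑ r, H p r * H r q = if p = q then 1 else 0)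
    (h3 : ∀ p q, |H p q| ≤ ρ ^ 16)
    (h5 : ∀ c : G → ℝ, ∑ p, c p ^ 4 + ∑ p, app H c p ^ 4 ≤ (1 + ρ ^ 16) * (∑ p, c p ^ 2) ^ 2)
    (c : G → ℝ)
    (hc : ∀ c' : G → ℝ, (∑ p, c' p * c p) ^ 4 ≤
          ∑ p, c' p ^ 4 + ∑ p, app H c' p ^ 4 + 3 * ρ ^ 16 * (∑ p, c' p ^ 2) ^ 2) :
    ∃ a x r : G → ℝ, (∀ p, c p = a p + app H x p + r p) ∧
      ∑ p, |a p| ≤ 2 / ρ ^ 4 ∧ ∑ p, |x p| ≤ 2 / ρ ^ 4 ∧ ∑ p, r p ^ 2 ≤ (4 * ρ) ^ 2 ∧
      ∑ p, a p ^ 2 + ∑ p, x p ^ 2 ≤ 1 + 2 * ρ ^ 16 + 4 * ρ ^ 2 := by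
  have hn := norm_le H ρ hρ h5 c hc
  have hρ16 : ρ ^ 16 ≤ 1 / 2 := by
    calc ρ ^ 16 ≤ (1/2) ^ 16 := pow_le_pow_left₀ hρ.le hρ2 16
      _ ≤ 1 / 2 := by norm_num
  have hn2 : ∑ p, c p ^ 2 ≤ 2 := by linarith
  set θ := ρ ^ 4 with hθ
  have hθ0 : 0 < θ := by positivity
  have hθ1 : θ ≤ 1 / 16 := by
    calc ρ ^ 4 ≤ (1/2) ^ 4 := pow_le_pow_left₀ hρ.le hρ2 4
      _ = 1 / 16 := by norm_num
  have h16 : ρ ^ 16 = θ ^ 4 := by rw [hθ]; ring
  let tr : (G → ℝ) → G → ℝ := fun u p => if θ ≤ |u p| then u p else 0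
  have trl : ∀ u : G → ℝ, ∑ p, u p ^ 2 ≤ 2 → ∑ p, |tr u p| ≤ 2 / θ := by
    intro u hu
    calc ∑ p, |tr u p| ≤ ∑ p, u p ^ 2 / θ := by
          refine Finset.sum_le_sum fun p _ => ?_
          simp only [tr]
          split_ifs with h
          · rw [le_div_iff₀ hθ0]
            nlinarith [sq_abs (u p), abs_nonneg (u p)]
          · simp; positivity
      _ = (∑ p, u p ^ 2) / θ := by rw [Finset.sum_div]
      _ ≤ 2 / θ := by gcongr
  have trs : ∀ (u : G → ℝ) p, |u p - tr u p| ≤ θ := by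
    intro u p
    simp only [tr]
    split_ifs with h
    · simp; exact hθ0.le
    · simp; exact (not_le.mp h).le
  have tro : ∀ (u : G → ℝ) p, u p * tr u p = tr u p ^ 2 := by
    intro u p
    simp only [tr]
    split_ifs <;> ring
  have trn : ∀ (u : G → ℝ) p, tr u p ^ 2 ≤ u p ^ 2 := by
    intro u p
    simp only [tr]
    split_ifs
    · exact le_rfl
    · simp; positivity
  have trn' : ∀ (u : G → ℝ) p, (u p - tr u p) ^ 2 ≤ u p ^ 2 := by
    intro u p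
    simp only [tr]
    split_ifs
    · simp; positivity
    · simp
  set hc' := app H c with hhc
  have hhn : ∑ p, hc' p ^ 2 = ∑ p, c p ^ 2 := norm_app H h1 h2 c
  set a := tr c with haa
  set x := tr hc' with hxx
  set r : G → ℝ := fun p => c p - a p - app H x p with hr
  have ha1 : ∑ p, |a p| ≤ 2 / θ := trl c hn2
  have hx1 : ∑ p, |x p| ≤ 2 / θ := trl hc' (by rw [hhn]; exact hn2)
  have hxs : ∀ p, |app H x p| ≤ 2 * θ ^ 3 := fun p => by
    calc |app H x p| ≤ ρ ^ 16 * ∑ q, |x q| := abs_app_le H _ h3 x p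
      _ ≤ ρ ^ 16 * (2 / θ) := by gcongr
      _ = 2 * θ ^ 3 := by rw [h16]; field_simp
  have has : ∀ p, |app H a p| ≤ 2 * θ ^ 3 := fun p => by
    calc |app H a p| ≤ ρ ^ 16 * ∑ q, |a q| := abs_app_le H _ h3 a p
      _ ≤ ρ ^ 16 * (2 / θ) := by gcongr
      _ = 2 * θ ^ 3 := by rw [h16]; field_simp
  have hθ3 : 2 * θ ^ 3 ≤ θ := by nlinarith [sq_nonneg θ]
  have hrs : ∀ p, |r p| ≤ 2 * θ := fun p => by
    have := trs c p
    have h' := hxs p
    simp only [hr]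
    calc |c p - a p - app H x p| ≤ |c p - a p| + |app H x p| := abs_sub _ _
      _ ≤ θ + 2 * θ ^ 3 := add_le_add this h'
      _ ≤ 2 * θ := by linarith
  have hHr : ∀ p, app H r p = hc' p - x p - app H a p := fun p => by
    have e1 : app H r p = app H (fun q => c q - a q) p - app H (app H x) p :=
      app_sub H (fun q => c q - a q) (app H x) p
    rw [e1, app_sub, app_app H h2]
    ring
  have hHrs : ∀ p, |app H r p| ≤ 2 * θ := fun p => by
    have := trs hc' p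
    have h' := has p
    rw [hHr]
    calc |hc' p - x p - app H a p| ≤ |hc' p - x p| + |app H a p| := abs_sub _ _
      _ ≤ θ + 2 * θ ^ 3 := add_le_add this h'
      _ ≤ 2 * θ := by linarith
  -- crude norm bound for r
  set R2 := ∑ p, r p ^ 2 with hR2
  have hR20 : 0 ≤ R2 := Finset.sum_nonneg fun _ _ => sq_nonneg _
  have hxn : ∑ p, x p ^ 2 ≤ 2 := by
    calc ∑ p, x p ^ 2 ≤ ∑ p, hc' p ^ 2 := Finset.sum_le_sum fun p _ => trn hc' p
      _ ≤ 2 := by rw [hhn]; exact hn2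
  have hR28 : R2 ≤ 8 := by
    calc R2 ≤ ∑ p, (2 * c p ^ 2 + 2 * app H x p ^ 2) := by
          refine Finset.sum_le_sum fun p _ => ?_
          simp only [hr]
          nlinarith [trn' c p, sq_nonneg ((c p - a p) + app H x p)]
      _ = 2 * ∑ p, c p ^ 2 + 2 * ∑ p, app H x p ^ 2 := by
          rw [Finset.sum_add_distrib, ← Finset.mul_sum, ← Finset.mul_sum]
      _ ≤ 8 := by rw [norm_app H h1 h2 x]; linarith
  have p4 : ∀ u : G → ℝ, (∀ p, |u p| ≤ 2 * θ) → ∑ p, u p ^ 4 ≤ 4 * θ ^ 2 * ∑ p, u p ^ 2 := by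
    intro u hu
    rw [Finset.mul_sum]
    refine Finset.sum_le_sum fun p _ => ?_
    have h1' : u p ^ 2 ≤ (2 * θ) ^ 2 := sq_le_sq' (by linarith [(abs_le.mp (hu p)).1])
      (abs_le.mp (hu p)).2
    nlinarith [sq_nonneg (u p)]
  have hrc4 : (∑ p, r p * c p) ^ 4 ≤ (4 * ρ ^ 2) ^ 4 := by
    calc (∑ p, r p * c p) ^ 4 ≤ ∑ p, r p ^ 4 + ∑ p, app H r p ^ 4 + 3 * ρ ^ 16 * R2 ^ 2 := hc r
      _ ≤ 4 * θ ^ 2 * R2 + 4 * θ ^ 2 * R2 + 3 * ρ ^ 16 * R2 ^ 2 := by
          have := p4 r hrs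
          have h' := p4 (app H r) hHrs
          rw [norm_app H h1 h2 r] at h'
          linarith
      _ ≤ 4 * θ ^ 2 * 8 + 4 * θ ^ 2 * 8 + 3 * ρ ^ 16 * 8 ^ 2 := by gcongr
      _ = 64 * θ ^ 2 + 192 * θ ^ 4 := by rw [h16]; ring
      _ ≤ 256 * θ ^ 2 := by nlinarith [sq_nonneg θ, sq_nonneg (θ ^ 2)]
      _ = (4 * ρ ^ 2) ^ 4 := by rw [hθ]; ring
  have hrc : |∑ p, r p * c p| ≤ 4 * ρ ^ 2 := by
    have h4 : |∑ p, r p * c p| ^ 4 ≤ (4 * ρ ^ 2) ^ 4 := by
      rwa [show |∑ p, r p * c p| ^ 4 = (∑ p, r p * c p) ^ 4 by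
        rw [show (4:ℕ) = 2 * 2 by norm_num, pow_mul, pow_mul, sq_abs]]
    exact le_of_pow_le_pow_left₀ (by norm_num) (by positivity) h4
  -- the cross term
  have hax : |∑ p, a p * app H x p| ≤ 4 * θ ^ 2 := by
    calc |∑ p, a p * app H x p| ≤ ∑ p, |a p * app H x p| := Finset.abs_sum_le_sum_abs _ _
      _ ≤ ∑ p, |a p| * (2 * θ ^ 3) := by
          refine Finset.sum_le_sum fun p _ => ?_
          rw [abs_mul]
          exact mul_le_mul_of_nonneg_left (hxs p) (abs_nonneg _)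
      _ = (∑ p, |a p|) * (2 * θ ^ 3) := by rw [Finset.sum_mul]
      _ ≤ 2 / θ * (2 * θ ^ 3) := by gcongr
      _ = 4 * θ ^ 2 := by field_simp; ring
  have ca : ∑ p, c p * a p = ∑ p, a p ^ 2 := Finset.sum_congr rfl fun p _ => tro c p
  have cx : ∑ p, c p * app H x p = ∑ p, x p ^ 2 := by
    rw [← dot_app H h1 c x]
    exact Finset.sum_congr rfl fun p _ => tro hc' p
  have xx : ∑ p, app H x p * app H x p = ∑ p, x p ^ 2 := by
    rw [← norm_app H h1 h2 x]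
    exact Finset.sum_congr rfl fun p _ => by ring
  -- identity for R2
  have id1 : R2 = ∑ p, r p * c p + 2 * ∑ p, a p * app H x p := by
    have e1 : R2 = ∑ p, r p * c p - (∑ p, c p * a p - ∑ p, a p ^ 2 - ∑ p, a p * app H x p)
        - (∑ p, c p * app H x p - ∑ p, a p * app H x p - ∑ p, app H x p * app H x p) := by
      rw [hR2]
      simp only [← Finset.sum_sub_distrib]
      refine Finset.sum_congr rfl fun p _ => ?_
      simp only [hr]; ring
    rw [e1, ca, cx, xx]; ring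
  have id2 : ∑ p, r p * c p = ∑ p, c p ^ 2 - ∑ p, a p ^ 2 - ∑ p, x p ^ 2 := by
    rw [← ca, ← cx, ← Finset.sum_sub_distrib, ← Finset.sum_sub_distrib]
    refine Finset.sum_congr rfl fun p _ => ?_
    simp only [hr]; ring
  have hρ8 : θ ^ 2 ≤ ρ ^ 2 := by
    rw [hθ]
    calc (ρ ^ 4) ^ 2 = ρ ^ 2 * ρ ^ 6 := by ring
      _ ≤ ρ ^ 2 * 1 := by
          gcongr
          exact pow_le_one₀ hρ.le (by linarith)
      _ = ρ ^ 2 := by ring
  rw [abs_le] at hrc hax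
  refine ⟨a, x, r, fun p => ?_, ha1, hx1, ?_, ?_⟩
  · simp only [hr]; ring
  · rw [← hR2, id1]; nlinarith [hrc.2, hax.2]
  · linarith [hrc.1]

end KB

open KB

theorem key_bound (ε : ℝ) (hε : 0 < ε) : ∃ Q0 : ℝ, ∀ (Q : ℝ), Q0 ≤ Q →
    ∀ (G : Type) [Fintype G] [DecidableEq G] (H : G → G → ℝ) (s : G → ℝ),
      (∀ p q, H p q = H q p) →
      (∀ p q, ∑ r, H p r * H r q = if p = q then 1 else 0) →
      (∀ p q, |H p q| ≤ 1 / Q) →
      (∀ p, s p = 1 ∨ s p = -1) →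
      (∀ p q, |∑ r, H p r * s r * H r q| ≤ 1 / Q) →
      (∀ c : G → ℝ, ∑ p, c p ^ 4 + ∑ p, (∑ q, H p q * c q) ^ 4 ≤ (1 + 1 / Q) * (∑ p, c p ^ 2) ^ 2) →
      ∀ c d : G → ℝ,
        (∀ c' : G → ℝ, (∑ p, c' p * c p) ^ 4 ≤
          ∑ p, c' p ^ 4 + ∑ p, (∑ q, H p q * c' q) ^ 4 + 3 / Q * (∑ p, c' p ^ 2) ^ 2) →
        (∀ d' : G → ℝ, (∑ p, d' p * d p) ^ 4 ≤
          ∑ p, d' p ^ 4 + ∑ p, (∑ q, H p q * d' q) ^ 4 + 3 / Q * (∑ p, d' p ^ 2) ^ 2) →
        |∑ p, c p * d p| ≤ 1 + ε ∧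
        ∀ σ : ℝ, (σ = 1 ∨ σ = -1) →
          |∑ p, s p * c p * d p
            + σ * ∑ p, s p * (∑ q, H p q * c q) * (∑ q, H p q * d q)| ≤ 1 + ε := by
  set m : ℝ := max 2 (100 / ε) with hm
  have hm2 : 2 ≤ m := le_max_left _ _
  have hm0 : 0 < m := by linarith
  refine ⟨m ^ 16, ?_⟩
  intro Q hQ G _ _ H s h1 h2 h3 hs h4 h5 c d hc hd
  have hQ0 : 0 < Q := lt_of_lt_of_le (by positivity) hQ
  set ρ : ℝ := (1 / Q) ^ ((1:ℝ) / 16) with hρdef
  have hρ : 0 < ρ := Real.rpow_pos_of_pos (by positivity) _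
  have hρ16 : ρ ^ 16 = 1 / Q := by
    rw [hρdef, ← Real.rpow_natCast, ← Real.rpow_mul (by positivity)]
    norm_num
  have hρm : ρ ≤ 1 / m := by
    have : ρ ^ 16 ≤ (1 / m) ^ 16 := by
      rw [hρ16, one_div_pow]
      exact one_div_le_one_div_of_le (by positivity) hQ
    exact le_of_pow_le_pow_left₀ (by norm_num) (by positivity) this
  have hρ2 : ρ ≤ 1 / 2 := hρm.trans (one_div_le_one_div_of_le (by norm_num) hm2)
  have hρε : 100 * ρ ≤ ε := by
    have h100 : 100 / ε ≤ m := le_max_right _ _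
    have : ρ ≤ ε / 100 := by
      refine hρm.trans ?_
      rw [div_le_div_iff₀ hm0 (by norm_num)]
      rw [div_le_iff₀ hε] at h100
      linarith
    linarith
  have h3' : ∀ p q, |H p q| ≤ ρ ^ 16 := by rw [hρ16]; exact h3
  have h4' : ∀ p q, |∑ r, H p r * s r * H r q| ≤ ρ ^ 16 := by rw [hρ16]; exact h4
  have h5' : ∀ c : G → ℝ, ∑ p, c p ^ 4 + ∑ p, app H c p ^ 4
      ≤ (1 + ρ ^ 16) * (∑ p, c p ^ 2) ^ 2 := by rw [hρ16]; exact h5
  have e3 : 3 * ρ ^ 16 = 3 / Q := by rw [hρ16]; ring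
  have hc' : ∀ c' : G → ℝ, (∑ p, c' p * c p) ^ 4 ≤
          ∑ p, c' p ^ 4 + ∑ p, app H c' p ^ 4 + 3 * ρ ^ 16 * (∑ p, c' p ^ 2) ^ 2 := by
    rw [e3]; exact hc
  have hd' : ∀ c' : G → ℝ, (∑ p, c' p * d p) ^ 4 ≤
          ∑ p, c' p ^ 4 + ∑ p, app H c' p ^ 4 + 3 * ρ ^ 16 * (∑ p, c' p ^ 2) ^ 2 := by
    rw [e3]; exact hd
  have nc := norm_le H ρ hρ h5' c hc'
  have nd := norm_le H ρ hρ h5' d hd'
  have hρle1 : ρ ≤ 1 := by linarith
  have p16 : ρ ^ 16 ≤ ρ := by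
    calc ρ ^ 16 ≤ ρ ^ 1 := pow_le_pow_of_le_one hρ.le hρle1 (by norm_num)
      _ = ρ := pow_one ρ
  have p8 : ρ ^ 8 ≤ ρ := by
    calc ρ ^ 8 ≤ ρ ^ 1 := pow_le_pow_of_le_one hρ.le hρle1 (by norm_num)
      _ = ρ := pow_one ρ
  have p2 : ρ ^ 2 ≤ ρ := by
    calc ρ ^ 2 ≤ ρ ^ 1 := pow_le_pow_of_le_one hρ.le hρle1 (by norm_num)
      _ = ρ := pow_one ρ
  constructor
  · calc |∑ p, c p * d p| ≤ ∑ p, |c p * d p| := Finset.abs_sum_le_sum_abs _ _
      _ ≤ ∑ p, (c p ^ 2 + d p ^ 2) / 2 := by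
          refine Finset.sum_le_sum fun p _ => ?_
          rw [abs_mul]
          nlinarith [sq_nonneg (|c p| - |d p|), sq_abs (c p), sq_abs (d p)]
      _ = (∑ p, c p ^ 2 + ∑ p, d p ^ 2) / 2 := by
          rw [← Finset.sum_div, Finset.sum_add_distrib]
      _ ≤ 1 + ε := by linarith
  · intro σ hσ
    obtain ⟨a, x, r, ec, ha, hx, hr, hax⟩ := decomp H ρ hρ hρ2 h1 h2 h3' h5' c hc'
    obtain ⟨b, y, r', ed, hb, hy, hr', hby⟩ := decomp H ρ hρ hρ2 h1 h2 h3' h5' d hd'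
    have nc4 : ∑ p, c p ^ 2 ≤ 4 := by linarith
    have nd4 : ∑ p, d p ^ 2 ≤ 4 := by linarith
    have T1 := twist H s (ρ ^ 16) (2 / ρ ^ 4) (4 * ρ) (by positivity) (by positivity) h1 h3' hs h4'
      c a x r d b y r' ec ed ha hx hb hy hr hr' (by positivity) nc4 nd4
    have ec2 : ∀ p, app H c p = x p + app H a p + app H r p := fun p => by
      have : c = fun q => (a q + app H x q) + r q := funext ec
      rw [this, app_add, app_add, app_app H h2]; ring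
    have ed2 : ∀ p, app H d p = y p + app H b p + app H r' p := fun p => by
      have : d = fun q => (b q + app H y q) + r' q := funext ed
      rw [this, app_add, app_add, app_app H h2]; ring
    have T2 := twist H s (ρ ^ 16) (2 / ρ ^ 4) (4 * ρ) (by positivity) (by positivity) h1 h3' hs h4'
      (app H c) x a (app H r) (app H d) y b (app H r') ec2 ed2 hx ha hy hb
      (by rw [norm_app H h1 h2]; exact hr) (by rw [norm_app H h1 h2]; exact hr') (by positivity)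
      (by rw [norm_app H h1 h2]; exact nc4) (by rw [norm_app H h1 h2]; exact nd4)
    have e8 : ρ ^ 16 * (2 / ρ ^ 4) ^ 2 = 4 * ρ ^ 8 := by field_simp; ring
    rw [e8] at T1 T2
    have T2' : |∑ p, s p * (∑ q, H p q * c q) * (∑ q, H p q * d q)| ≤
        (∑ p, x p ^ 2 + ∑ p, y p ^ 2) / 2 + 3 * (4 * ρ ^ 8) + 4 * (4 * ρ) + (4 * ρ) ^ 2 := T2
    have hσ1 : |σ| = 1 := by rcases hσ with h | h <;> simp [h]
    calc |∑ p, s p * c p * d p
            + σ * ∑ p, s p * (∑ q, H p q * c q) * (∑ q, H p q * d q)|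
        ≤ |∑ p, s p * c p * d p|
            + |σ * ∑ p, s p * (∑ q, H p q * c q) * (∑ q, H p q * d q)| := abs_add_le _ _
      _ = |∑ p, s p * c p * d p|
            + |∑ p, s p * (∑ q, H p q * c q) * (∑ q, H p q * d q)| := by
          rw [abs_mul, hσ1, one_mul]
      _ ≤ 1 + ε := by nlinarith [T1, T2', hax, hby]

end Pool.Agent.Cotype
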